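import Pool.Agent.H770.GS.TA

set_option autoImplicit false

/-!
# Project TA (helper770): the statement `S_repr` (helper385)
-/

open MeasureTheory Set intervalIntegral

namespace Pool.Agent.H385.GSrepr

open Pool.Agent.H770.GS

theorem gs_int {τ : ℝ} (hτ : 0 < τ) : Integrable (gs τ) := by
  have h := (integrable_exp_neg_mul_sq (b := 1 / (2 * τ ^ 2)) (by positivity)).const_mul
    (1 / Real.sqrt (2 * Real.pi * τ ^ 2))
  refine h.congr (Filter.Eventually.of_forall fun x => ?_)
  have e : -(1 / (2 * τ ^ 2)) * x ^ 2 = -x ^ 2 / (2 * τ ^ 2) := by ring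
  simp only [gs, e]

/-- the positive half of `nLo r` -/
noncomputable def Np (r x : ℝ) : ℝ := (Ioc 0 (2 * r)).indicator (nL r) x

theorem nLo_eq (r x : ℝ) : nLo r x = Np r x - Np r (-x) := by
  unfold nLo Np
  by_cases h1 : 0 < x ∧ x ≤ 2 * r
  · rw [if_pos h1, indicator_of_mem (show x ∈ Ioc 0 (2 * r) from h1), indicator_of_notMem,
      sub_zero]
    intro h
    linarith [h.1, h1.1]
  · rw [if_neg h1, indicator_of_notMem (show x ∉ Ioc 0 (2 * r) from h1), zero_sub]
    by_cases h2 : x < 0 ∧ -(2 * r) ≤ x
    · rw [if_pos h2, indicator_of_mem]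
      exact ⟨by linarith [h2.1], by linarith [h2.2]⟩
    · rw [if_neg h2, indicator_of_notMem, neg_zero]
      intro h
      exact h2 ⟨by linarith [h.1], by linarith [h.2]⟩

theorem Np_meas (r : ℝ) : Measurable (Np r) := (nL_cont r).measurable.indicator measurableSet_Ioc

theorem Np_bdd (r : ℝ) : ∃ C, ∀ x, |Np r x| ≤ C := by
  obtain ⟨C, hC⟩ := (isCompact_Icc (a := (0 : ℝ)) (b := 2 * r)).exists_bound_of_continuousOn
    (nL_cont r).continuousOn
  refine ⟨max C 0, fun x => ?_⟩
  unfold Np
  by_cases h : x ∈ Ioc 0 (2 * r)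
  · rw [indicator_of_mem h]
    exact (hC x ⟨h.1.le, h.2⟩).trans (le_max_left _ _)
  · rw [indicator_of_notMem h, abs_zero]
    exact le_max_right _ _

theorem nLo_meas (r : ℝ) : Measurable (nLo r) := by
  have : nLo r = fun x => Np r x - Np r (-x) := funext (nLo_eq r)
  rw [this]
  exact (Np_meas r).sub ((Np_meas r).comp measurable_neg)

theorem nLo_bdd (r : ℝ) : ∃ C, ∀ x, |nLo r x| ≤ C := by
  obtain ⟨C, hC⟩ := Np_bdd r
  refine ⟨C + C, fun x => ?_⟩
  rw [nLo_eq]
  exact (abs_sub _ _).trans (add_le_add (hC _) (hC _))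

theorem int_mul_bdd {f g : ℝ → ℝ} (hf : Integrable f) (hg : Measurable g)
    (hb : ∃ C, ∀ x, |g x| ≤ C) : Integrable fun x => f x * g x := by
  obtain ⟨C, hC⟩ := hb
  exact hf.mul_bdd hg.aestronglyMeasurable (Filter.Eventually.of_forall hC)

/-- the pair -/
theorem repr2 {r τ : ℝ} (hr : 0 < r) (hτ : 0 < τ) (v : ℝ) :
    cv r 1 (cv r 1 (kg τ)) v = ∫ u, gs τ u * nLo r (v + u) := by
  have h1 : cv r 1 (cv r 1 (kg τ)) v =
      (∫ z in (0 : ℝ)..(2 * r), gs τ (z - v) * nL r z) -
        ∫ z in (0 : ℝ)..(2 * r), gs τ (-z - v) * nL r z := by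
    have hg := gs_cont τ
    have hn := nL_cont r
    rw [pair_formula hr (kg_cont τ), ← intervalIntegral.integral_sub
      (Continuous.intervalIntegrable (by fun_prop) _ _)
      (Continuous.intervalIntegrable (by fun_prop) _ _)]
    refine intervalIntegral.integral_congr fun z _ => ?_
    have e : ∫ u in (-z)..z, kg τ (v + 1 * u) = -gs τ (v + 1 * z) - -gs τ (v + 1 * -z) := by
      refine intervalIntegral.integral_eq_sub_of_hasDerivAt (f := fun u => -gs τ (v + 1 * u))
        (fun u _ => ?_) ?_
      · have h2 : HasDerivAt (fun u : ℝ => v + 1 * u) 1 u := by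
          simpa using (hasDerivAt_id u).const_add v
        have h3 := ((gs_deriv τ (v + 1 * u)).comp u h2).neg
        refine h3.congr_deriv ?_
        ring
      · have := kg_cont τ
        exact Continuous.intervalIntegrable (by fun_prop) _ _
    show nL r z * (∫ u in (-z)..z, kg τ (v + 1 * u)) =
      gs τ (z - v) * nL r z - gs τ (-z - v) * nL r z
    rw [e, show z - v = -(v + 1 * -z) by ring, gs_even, show -z - v = -(v + 1 * z) by ring,
      gs_even]
    ring
  have h2 : ∫ u, gs τ u * nLo r (v + u) = ∫ x, gs τ (x - v) * nLo r x := by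
    rw [← integral_sub_right_eq_self (fun u => gs τ u * nLo r (v + u)) v]
    refine integral_congr_ae (Filter.Eventually.of_forall fun x => ?_)
    simp only [add_sub_cancel]
  have hgi : Integrable fun x => gs τ (x - v) := (gs_int hτ).comp_sub_right v
  have i1 : Integrable fun x => gs τ (x - v) * Np r x := int_mul_bdd hgi (Np_meas r) (Np_bdd r)
  have i2 : Integrable fun x => gs τ (x - v) * Np r (-x) := by
    refine int_mul_bdd hgi ((Np_meas r).comp measurable_neg) ?_
    obtain ⟨C, hC⟩ := Np_bdd r
    exact ⟨C, fun x => hC _⟩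
  have h3 : ∫ x, gs τ (x - v) * nLo r x =
      (∫ x, gs τ (x - v) * Np r x) - ∫ x, gs τ (x - v) * Np r (-x) := by
    rw [← MeasureTheory.integral_sub i1 i2]
    refine integral_congr_ae (Filter.Eventually.of_forall fun x => ?_)
    simp only [nLo_eq, mul_sub]
  have h4 : ∫ x, gs τ (x - v) * Np r (-x) = ∫ x, gs τ (-x - v) * Np r x := by
    rw [← integral_neg_eq_self (fun x => gs τ (x - v) * Np r (-x))]
    simp only [neg_neg]
  have h5 : ∀ g : ℝ → ℝ, ∫ x, g x * Np r x = ∫ z in (0 : ℝ)..(2 * r), g z * nL r z := by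
    intro g
    rw [intervalIntegral.integral_of_le (by linarith), ← MeasureTheory.integral_indicator
      measurableSet_Ioc]
    refine integral_congr_ae (Filter.Eventually.of_forall fun x => ?_)
    unfold Np
    by_cases h : x ∈ Ioc 0 (2 * r)
    · simp only [indicator_of_mem h]
    · simp only [indicator_of_notMem h, mul_zero]
  rw [h1, h2, h3, h4, h5 (fun x => gs τ (x - v)), h5 (fun x => gs τ (-x - v))]

/-- **S2**: the smoothed kernel of the triple -/
theorem repr : S_repr := by
  intro r c τ hr hc hτ v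
  have h1 : cv r c (cv r 1 (cv r 1 (kg τ))) v =
      ∫ w in (-r)..r, W w * ∫ u, gs τ u * nLo r (v + c * w + u) := by
    unfold cv
    refine intervalIntegral.integral_congr fun w _ => ?_
    have := repr2 hr hτ (v + c * w)
    unfold cv at this
    simp only [this]
  have hrr : -r ≤ r := by linarith
  rw [h1, intervalIntegral.integral_of_le hrr]
  simp only [n3, intervalIntegral.integral_of_le hrr]
  simp only [← MeasureTheory.integral_const_mul]
  rw [MeasureTheory.integral_integral_swap]
  · refine integral_congr_ae (Filter.Eventually.of_forall fun u => ?_)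
    refine integral_congr_ae (Filter.Eventually.of_forall fun w => ?_)
    show W w * (gs τ u * nLo r (v + c * w + u)) = gs τ u * (W w * nLo r (v + u + c * w))
    rw [show v + c * w + u = v + u + c * w by ring]
    ring
  · have hW : Integrable W (volume.restrict (Ioc (-r) r)) :=
      (W_cont.integrableOn_Icc (a := -r) (b := r)).mono_set Ioc_subset_Icc_self
    have h2 := hW.mul_prod (gs_int hτ)
    obtain ⟨C, hC⟩ := nLo_bdd r
    have hm : Measurable fun z : ℝ × ℝ => nLo r (v + c * z.1 + z.2) :=
      (nLo_meas r).comp (by fun_prop)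
    have h3 := h2.mul_bdd (c := C) hm.aestronglyMeasurable
      (Filter.Eventually.of_forall fun z => hC _)
    refine h3.congr (Filter.Eventually.of_forall fun z => ?_)
    show W z.1 * gs τ z.2 * nLo r (v + c * z.1 + z.2) =
      W z.1 * (gs τ z.2 * nLo r (v + c * z.1 + z.2))
    ring

end Pool.Agent.H385.GSrepr
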