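import Mathlib
import Pool.Agent.H316.EM.Stm2

/-!
# EM (MP_e2f787): FINAUT, FGN, FI1
-/

set_option autoImplicit false

namespace Pool.Agent.H385

open Pool.Agent.H316.EM
open scoped commutatorElement

/-- a commutative ring which is a finitely generated abelian group has finitely many elements of square one -/
theorem fin_sq (R : Type) [CommRing R] [Module.Finite ℤ R] : {u : R | u * u = 1}.Finite := by
  classical
  have : IsNoetherianRing R := by
    have : IsNoetherian ℤ R := inferInstance
    exact isNoetherian_of_tower ℤ this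
  have hfm : Finite (minimalPrimes R) := (minimalPrimes.finite_of_isNoetherianRing R).to_subtype
  let F : R → (minimalPrimes R → Prop) := fun u q => u - 1 ∈ q.1
  have htor : (Submodule.torsion ℤ R : Set R).Finite := by
    have : Module.Finite ℤ (Submodule.torsion ℤ R) := inferInstance
    have h1 : Finite (Submodule.torsion ℤ R) := Module.finite_of_fg_torsion _ (Submodule.torsion_isTorsion)
    exact Set.toFinite _
  refine Set.Finite.of_finite_fibers F (Set.toFinite _) ?_
  rintro _ ⟨v, hv, rfl⟩
  refine (htor.image (fun d => v + d)).subset ?_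
  rintro u ⟨hu, huv⟩
  refine ⟨u - v, ?_, by simp⟩
  have hu' : u * u = 1 := hu
  have hv' : v * v = 1 := hv
  have huv' : F u = F v := huv
  -- `u - v` is nilpotent
  have hnil : IsNilpotent (u - v) := by
    rw [← mem_nilradical, nilradical, Ideal.radical_eq_sInf]
    rw [Submodule.mem_sInf]
    rintro p ⟨-, hp⟩
    obtain ⟨q, hq, hqp⟩ := Ideal.exists_minimalPrimes_le (I := (⊥ : Ideal R)) (J := p) bot_le
    have hqp' : q.IsPrime := hq.1.1
    apply hqp
    have key : ∀ w : R, w * w = 1 → w - 1 ∈ q ∨ w + 1 ∈ q := by
      intro w hw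
      apply hqp'.mem_or_mem
      have : (w - 1) * (w + 1) = 0 := by ring_nf; rw [pow_two, hw]; ring
      rw [this]
      exact q.zero_mem
    have h1 : (u - 1 ∈ q) = (v - 1 ∈ q) := congrFun huv' ⟨q, hq⟩
    by_cases h2 : u - 1 ∈ q
    · have h3 : v - 1 ∈ q := by rw [← h1]; exact h2
      have := q.sub_mem h2 h3
      simpa using this
    · have h3 : v - 1 ∉ q := by rw [← h1]; exact h2
      have h4 := (key u hu').resolve_left h2
      have h5 := (key v hv').resolve_left h3
      have := q.sub_mem h4 h5
      simpa using this
  obtain ⟨n, hn⟩ := hnil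
  -- `(u - v) ^ (n + 1) = (2 u) ^ n (u - v)`
  have h2 : ∀ m : ℕ, (u - v) ^ (m + 1) = (2 * u) ^ m * (u - v) := by
    intro m
    induction m with
    | zero => simp
    | succ m ih =>
      rw [pow_succ, ih, pow_succ (2 * u)]
      have : (u - v) * (u - v) = 2 * u * (u - v) := by
        linear_combination (-1 : R) * hu' + hv'
      rw [mul_assoc, this]
      ring
  have h3 : (2 : R) ^ n * (u - v) = 0 := by
    have h4 := h2 n
    rw [pow_succ, hn, zero_mul] at h4
    have h5 : (u ^ n * u ^ n) = 1 := by rw [← mul_pow, hu', one_pow]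
    calc (2 : R) ^ n * (u - v) = (u ^ n * u ^ n) * (2 ^ n * (u - v)) := by rw [h5, one_mul]
      _ = u ^ n * ((2 * u) ^ n * (u - v)) := by rw [mul_pow]; ring
      _ = 0 := by rw [← h4, mul_zero]
  show u - v ∈ Submodule.torsion ℤ R
  rw [Submodule.mem_torsion_iff]
  refine ⟨⟨2 ^ n, mem_nonZeroDivisors_of_ne_zero (by positivity)⟩, ?_⟩
  show (2 ^ n : ℤ) • (u - v) = 0
  rw [zsmul_eq_mul]
  push_cast
  exact h3

theorem em_finaut : S_FINAUT := by
  intro L _ _ A _ hA ρ
  classical
  have : Module.Finite ℤ (Additive L) := by
    have : AddGroup.FG (Additive L) := inferInstance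
    exact Module.Finite.iff_addGroup_fg.2 inferInstance
  -- the action
  let act : A →* Module.End ℤ (Additive L) :=
    { toFun := fun a => (MonoidHom.toAdditive (ρ a).toMonoidHom).toIntLinearMap
      map_one' := by ext x; simp
      map_mul' := by intro a b; ext x; simp }
  let φ : MonoidAlgebra ℤ A →ₐ[ℤ] Module.End ℤ (Additive L) := MonoidAlgebra.lift ℤ _ A act
  let R := MonoidAlgebra ℤ A ⧸ RingHom.ker φ
  have hEnd : IsNoetherian ℤ (Module.End ℤ (Additive L)) := by
    obtain ⟨S, hS⟩ := (inferInstance : Module.Finite ℤ (Additive L)).fg_top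
    let ev : Module.End ℤ (Additive L) →ₗ[ℤ] (S → Additive L) :=
      LinearMap.pi (fun s => LinearMap.applyₗ (s : Additive L))
    refine isNoetherian_of_injective ev ?_
    intro f f' hff'
    apply LinearMap.ext_on (s := (S : Set (Additive L))) hS
    intro s hs
    exact congrFun hff' ⟨s, hs⟩
  have : Module.Finite ℤ R := by
    have hinj : Function.Injective (Ideal.kerLiftAlg φ) := Ideal.kerLiftAlg_injective φ
    have : IsNoetherian ℤ R := isNoetherian_of_injective (Ideal.kerLiftAlg φ).toLinearMap hinj
    infer_instance
  have hfin := fin_sq R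
  let u : A → R := fun a => Ideal.Quotient.mk _ (MonoidAlgebra.of ℤ A a)
  have hu : ∀ a, u a * u a = 1 := by
    intro a
    show Ideal.Quotient.mk _ _ * Ideal.Quotient.mk _ _ = 1
    rw [← map_mul, ← map_mul, hA a, map_one, map_one]
  have hrf : (Set.range u).Finite := hfin.subset (by rintro _ ⟨a, rfl⟩; exact hu a)
  have hker : ∀ a b, u a = u b → ρ a = ρ b := by
    intro a b hab
    have h1 : φ (MonoidAlgebra.of ℤ A a) = φ (MonoidAlgebra.of ℤ A b) := by
      have := congrArg (Ideal.kerLiftAlg φ) hab
      simpa [u, Ideal.kerLiftAlg_mk] using this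
    have h2 : act a = act b := by simpa [φ] using h1
    ext x
    exact congrArg (fun f : Module.End ℤ (Additive L) => (f (Additive.ofMul x)).toMul) h2
  have hrange : Finite ρ.range := by
    have : (Set.range ρ).Finite := by
      have h3 : Set.range ρ = (fun r => ρ (Function.invFun u r)) '' Set.range u := by
        ext y
        constructor
        · rintro ⟨a, rfl⟩
          refine ⟨u a, ⟨a, rfl⟩, ?_⟩
          exact hker _ _ (Function.invFun_eq ⟨a, rfl⟩)
        · rintro ⟨_, ⟨a, rfl⟩, rfl⟩
          exact ⟨_, rfl⟩
      rw [h3]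
      exact hrf.image _
    exact this.to_subtype
  rw [Subgroup.index_ker]
  exact Nat.card_pos.ne'

theorem em_fgn : S_FGN := by
  classical
  intro M _ _
  obtain ⟨T, hT⟩ := (inferInstance : Group.FG M).out
  let S : Finset M := (T ×ˢ T).image (fun p => ⁅p.1, p.2⁆)
  refine ⟨S, ?_⟩
  have hset : {x : M | ∃ m : M, ∃ s ∈ S, x = m * s * m⁻¹} = Group.conjugatesOfSet (S : Set M) := by
    ext x
    rw [Group.mem_conjugatesOfSet_iff]
    constructor
    · rintro ⟨m, s, hs, rfl⟩
      exact ⟨s, hs, isConj_iff.2 ⟨m, rfl⟩⟩
    · rintro ⟨s, hs, h⟩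
      obtain ⟨m, hm⟩ := isConj_iff.1 h
      exact ⟨m, s, hs, hm.symm⟩
  rw [hset]
  change commutator M = Subgroup.normalClosure (S : Set M)
  apply le_antisymm
  · -- the quotient is commutative
    set N := Subgroup.normalClosure (S : Set M) with hN
    have h1 : ∀ a ∈ T, ∀ b ∈ T, ⁅a, b⁆ ∈ N := by
      intro a ha b hb
      apply Subgroup.subset_normalClosure
      exact Finset.mem_image.2 ⟨(a, b), Finset.mem_product.2 ⟨ha, hb⟩, rfl⟩
    have hcomm : ∀ x y : M, (QuotientGroup.mk' N x) * (QuotientGroup.mk' N y) =
        (QuotientGroup.mk' N y) * (QuotientGroup.mk' N x) := by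
      have h2 : ∀ a ∈ T, ∀ b ∈ T, (QuotientGroup.mk' N a) * (QuotientGroup.mk' N b) =
          (QuotientGroup.mk' N b) * (QuotientGroup.mk' N a) := by
        intro a ha b hb
        have h3 : QuotientGroup.mk' N ⁅a, b⁆ = 1 := (QuotientGroup.eq_one_iff _).2 (h1 a ha b hb)
        rw [map_commutatorElement, commutatorElement_eq_one_iff_mul_comm] at h3
        exact h3
      have h3 : ∀ a ∈ T, ∀ y : M, (QuotientGroup.mk' N a) * (QuotientGroup.mk' N y) =
          (QuotientGroup.mk' N y) * (QuotientGroup.mk' N a) := by
        intro a ha y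
        have hy : y ∈ Subgroup.closure (T : Set M) := by rw [hT]; trivial
        induction hy using Subgroup.closure_induction with
        | mem b hb => exact h2 a ha b hb
        | one => simp
        | mul x y _ _ hx hy =>
          rw [map_mul, ← mul_assoc, hx, mul_assoc, hy, mul_assoc]
        | inv x _ hx =>
          rw [map_inv]
          exact (Commute.inv_right hx : Commute _ _)
      intro x y
      have hx : x ∈ Subgroup.closure (T : Set M) := by rw [hT]; trivial
      induction hx using Subgroup.closure_induction with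
      | mem a ha => exact h3 a ha y
      | one => simp
      | mul x x' _ _ hx hx' =>
        rw [map_mul, mul_assoc, hx', ← mul_assoc, hx, mul_assoc]
      | inv x _ hx =>
        rw [map_inv]
        exact (Commute.inv_left hx : Commute _ _)
    rw [commutator_def, Subgroup.commutator_le]
    intro x _ y _
    have h4 : QuotientGroup.mk' N ⁅x, y⁆ = 1 := by
      rw [map_commutatorElement, commutatorElement_eq_one_iff_mul_comm]
      exact hcomm x y
    exact (QuotientGroup.eq_one_iff _).1 h4
  · apply Subgroup.normalClosure_le_normal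
    intro x hx
    obtain ⟨p, -, rfl⟩ := Finset.mem_image.1 hx
    exact Subgroup.commutator_mem_commutator (Subgroup.mem_top _) (Subgroup.mem_top _)

theorem em_fi1 : S_FI1 := by
  intro hF M _ _ D A₁ hA₁
  have : Group.FG (Abelianization M) :=
    Group.fg_of_surjective (f := (Abelianization.of : M →* Abelianization M)) (QuotientGroup.mk_surjective)
  let ρ : Multiplicative AA →* MulAut (Abelianization M) :=
    { toFun := fun a => (D.ia (a.toAdd : KK)).abelianizationCongr
      map_one' := by
        have h0 : D.ia 0 = 1 := by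
          have h := D.iadd 0 AA.zero_mem 0 AA.zero_mem
          rw [add_zero] at h
          exact mul_right_cancel (h.symm.trans (one_mul (D.ia 0)).symm)
        show (D.ia 0).abelianizationCongr = 1
        rw [h0]
        ext x
        induction x using QuotientGroup.induction_on with
        | H x => rfl
      map_mul' := by
        intro a b
        show (D.ia ((a.toAdd : KK) + (b.toAdd : KK))).abelianizationCongr = _
        rw [D.iadd _ (a.toAdd).2 _ (b.toAdd).2]
        ext x
        induction x using QuotientGroup.induction_on with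
        | H x => rfl }
  have hker : ∀ a : AA, ρ (Multiplicative.ofAdd a) = 1 ↔ (a : KK) ∈ A₁ := by
    intro a
    rw [hA₁]
    constructor
    · intro h
      refine ⟨a.2, fun x => ?_⟩
      have h1 : ρ (Multiplicative.ofAdd a) (Abelianization.of x) = Abelianization.of x := by rw [h]; rfl
      have h2 : Abelianization.of (D.ia (a : KK) x) = Abelianization.of x := h1
      rw [← Abelianization.ker_of M, MonoidHom.mem_ker, map_mul, map_inv, h2, mul_inv_cancel]
    · rintro ⟨-, h⟩
      ext x
      induction x using QuotientGroup.induction_on with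
      | H x =>
        have h1 := h x
        rw [← Abelianization.ker_of M, MonoidHom.mem_ker, map_mul, map_inv, mul_inv_eq_one] at h1
        exact h1
  have hfin := hF (Abelianization M) (Multiplicative AA) (by
    intro a
    have : a.toAdd + a.toAdd = 0 := by
      have h2 : (2 : ZMod 2) • a.toAdd = 0 := by
        have : (2 : ZMod 2) = 0 := rfl
        rw [this, zero_smul]
      rwa [two_smul] at h2
    exact congrArg Multiplicative.ofAdd this) ρ
  unfold Fi
  rw [AddSubgroup.relIndex]
  have heq : ρ.ker = AddSubgroup.toSubgroup (A₁.toAddSubgroup.addSubgroupOf AA.toAddSubgroup) := by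
    ext a
    rw [MonoidHom.mem_ker]
    exact hker a.toAdd
  rw [heq] at hfin
  exact hfin

end Pool.Agent.H385
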