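import Pool.Agent.H979.GW.StmA

set_option autoImplicit false
set_option linter.unusedSectionVars false

open MeasureTheory ProbabilityTheory Filter Topology Set
open scoped ENNReal NNReal

namespace Pool.Agent.H385

open Pool.Agent.H979.GW

variable {Q : Type}

theorem ty_snoc (a : Q) (u : Vx Q) (c : Q × ℕ) : ty a (u ++ [c]) = ty c.1 u := by
  cases u <;> rfl

/-- the word made of a label and a word -/
def gwf (p : (Q × ℕ) × Vx Q) : Vx Q := p.2 ++ [p.1]

theorem gwf_inj : Function.Injective (gwf (Q := Q)) := by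
  rintro ⟨c, u⟩ ⟨d, v⟩ h
  simp only [gwf] at h
  have h2 := List.append_inj' h rfl
  have h3 : c = d := by simpa using h2.2
  rw [h3, h2.1]

theorem gwf_ne (p : (Q × ℕ) × Vx Q) : gwf p ≠ [] := by
  simp [gwf]

theorem gwf_range {v : Vx Q} (h : v ≠ []) : v ∈ Set.range (gwf (Q := Q)) :=
  ⟨(v.getLast h, v.dropLast), List.dropLast_append_getLast h⟩

/-- gluing -/
noncomputable def gwglue (p : (Q → ℕ) × ((Q × ℕ) × Vx Q → Q → ℕ)) : Env Q := fun v =>
  if h : v = [] then p.1 else p.2 (v.getLast h, v.dropLast)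

theorem gwglue_nil (p : (Q → ℕ) × ((Q × ℕ) × Vx Q → Q → ℕ)) : gwglue p [] = p.1 := by
  simp [gwglue]

theorem gwglue_snoc (p : (Q → ℕ) × ((Q × ℕ) × Vx Q → Q → ℕ)) (r : (Q × ℕ) × Vx Q) :
    gwglue p (gwf r) = p.2 r := by
  have h : gwf r ≠ [] := gwf_ne r
  unfold gwglue
  rw [dif_neg h]
  simp [gwf]

theorem gwglue_meas : Measurable (gwglue (Q := Q)) := by
  refine measurable_pi_lambda _ fun v => ?_
  by_cases h : v = []
  · subst h
    simp only [gwglue_nil]
    exact measurable_fst
  · obtain ⟨r, rfl⟩ := gwf_range h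
    simp only [gwglue_snoc]
    exact (measurable_pi_apply r).comp measurable_snd

theorem gw_glue (q : Q → Measure (Q → ℕ)) [∀ a, IsProbabilityMeasure (q a)] (a : Q) :
    ((q a).prod (Measure.infinitePi fun p : (Q × ℕ) × Vx Q => q (ty p.1.1 p.2))).map gwglue =
      law q a := by
  classical
  unfold law
  refine Measure.eq_infinitePi _ fun s t ht => ?_
  rw [Measure.map_apply gwglue_meas (.pi s.countable_toSet fun _ _ ↦ ht _)]
  have hS : Set.InjOn (gwf (Q := Q)) (gwf ⁻¹' ↑(s.erase [])) := gwf_inj.injOn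
  have key : gwglue ⁻¹' (Set.pi s t) =
      (if [] ∈ s then t [] else Set.univ) ×ˢ
        (Set.pi ((s.erase []).preimage gwf hS) fun p => t (gwf p)) := by
    ext p
    simp only [Set.mem_preimage, Set.mem_pi, Set.mem_prod, Finset.mem_coe, Finset.mem_preimage,
      Finset.mem_erase]
    constructor
    · intro h
      constructor
      · split_ifs with h0
        · have := h [] h0
          rwa [gwglue_nil] at this
        · trivial
      · intro r hr
        have := h _ hr.2
        rwa [gwglue_snoc] at this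
    · rintro ⟨h1, h2⟩ v hv
      by_cases h0 : v = []
      · subst h0
        rw [gwglue_nil]
        rwa [if_pos hv] at h1
      · obtain ⟨r, rfl⟩ := gwf_range h0
        rw [gwglue_snoc]
        exact h2 r ⟨h0, hv⟩
  rw [key, Measure.prod_prod, Measure.infinitePi_pi _ fun i _ => ht _]
  have h1 : ∏ i ∈ (s.erase []).preimage gwf hS, q (ty i.1.1 i.2) (t (gwf i)) =
      ∏ v ∈ s.erase [], q (ty a v) (t v) := by
    rw [← Finset.prod_preimage gwf (s.erase []) hS (fun v => q (ty a v) (t v))]
    · refine Finset.prod_congr rfl fun i _ => ?_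
      rw [gwf, ty_snoc]
    · intro x hx hx'
      exact absurd (gwf_range (Finset.ne_of_mem_erase hx)) hx'
  rw [h1]
  split_ifs with h0
  · rw [← Finset.mul_prod_erase s _ h0]
    rfl
  · rw [Finset.erase_eq_of_notMem h0, measure_univ, one_mul]

theorem gw_dec {Q : Type} [Fintype Q] [DecidableEq Q] (q : Q → Measure (Q → ℕ)) [∀ a, IsProbabilityMeasure (q a)] : S_DEC q := by
  intro a
  have hΦ : Measurable (fun ω : Env Q => (ω [], fun c : Q × ℕ => sh [c] ω)) := by
    refine Measurable.prodMk (measurable_pi_apply _) (measurable_pi_lambda _ fun c => ?_)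
    exact measurable_pi_lambda _ fun u => measurable_pi_apply _
  have hc := Measure.infinitePi_map_curry_symm (fun (c : Q × ℕ) (v : Vx Q) => q (ty c.1 v))
  have hC : Measurable (MeasurableEquiv.curry (Q × ℕ) (Vx Q) (Q → ℕ)).symm :=
    MeasurableEquiv.measurable _
  have h2 : (q a).prod (Measure.infinitePi fun p : (Q × ℕ) × Vx Q => q (ty p.1.1 p.2)) =
      ((q a).prod (Measure.infinitePi fun c : Q × ℕ => law q c.1)).map
        (Prod.map id (MeasurableEquiv.curry (Q × ℕ) (Vx Q) (Q → ℕ)).symm) := by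
    rw [← Measure.map_prod_map _ _ measurable_id hC, Measure.map_id, ← hc]
    rfl
  have h3 := gw_glue q a
  rw [h2, Measure.map_map gwglue_meas (measurable_id.prodMap hC)] at h3
  rw [← h3, Measure.map_map hΦ (gwglue_meas.comp (measurable_id.prodMap hC))]
  have h4 : (fun ω : Env Q => (ω [], fun c : Q × ℕ => sh [c] ω)) ∘
      (gwglue ∘ Prod.map id (MeasurableEquiv.curry (Q × ℕ) (Vx Q) (Q → ℕ)).symm) = id := by
    funext p
    obtain ⟨x, y⟩ := p
    simp only [Function.comp, id, Prod.map]
    refine Prod.ext ?_ ?_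
    · exact gwglue_nil (x, (MeasurableEquiv.curry (Q × ℕ) (Vx Q) (Q → ℕ)).symm y)
    · funext c
      funext u
      exact gwglue_snoc (x, (MeasurableEquiv.curry (Q × ℕ) (Vx Q) (Q → ℕ)).symm y) (c, u)
  rw [h4, Measure.map_id]

end Pool.Agent.H385
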